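import Mathlib

set_option autoImplicit false

/-!
# The partial quotients `b_n` of the alternating continued-fraction sum algorithm can decrease

For every real `x` with `937/4710 ≤ x < 28244/141973` (for instance `x = 75/377`) the procedure gives `c_1 = 6`,
`b_1 = 30`, `c_2 = 27`, `b_2 = 28`.
-/

namespace Pool.Agent.Results.MP_7100ec_nt.NotMonotone

/-- `pq n y` is the partial quotient with index `n + 1` of the regular continued fraction of `y ∈ (0, 1]`
(computed with the Gauss map; this gives the normalisation of the finite expansions in which the last partial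
quotient is at least `2`, and `1 = [1]`); it is `none` if `y` has at most `n` partial quotients. -/
noncomputable def pq : ℕ → ℝ → Option ℕ
  | 0, y => if y = 0 then none else some ⌊1 / y⌋₊
  | (n + 1), y => if y = 0 then none else pq n (Int.fract (1 / y))

/-- The value of the finite continued fraction `[c_1, …, c_n]`; `0` for the empty list. -/
noncomputable def cfval : List ℕ → ℝ
  | [] => 0
  | (c :: l) => 1 / ((c : ℝ) + cfval l)

/-- `seqs x n` is the pair of the lists `[c_1, …, c_n]` and `[b_1, …, b_n]` of the procedure, `none` if it stops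
earlier. The next terms are `c_{n+1} = a_{n+1}(x - [b_1, …, b_n]) + 1` (for `n = 0` this is `a_1(x) + 1`) and then
`b_{n+1} = a_{n+1}(x - [c_1, …, c_{n+1}])`. -/
noncomputable def seqs (x : ℝ) : ℕ → Option (List ℕ × List ℕ)
  | 0 => some ([], [])
  | (n + 1) => (seqs x n).bind fun s =>
      (pq n (x - cfval s.2)).bind fun a =>
        (pq n (x - cfval (s.1 ++ [a + 1]))).bind fun b => some (s.1 ++ [a + 1], s.2 ++ [b])

theorem pq_zero (y : ℝ) (m : ℕ) (hm : 1 ≤ m) (h1 : 1 / ((m : ℝ) + 1) < y) (h2 : y ≤ 1 / (m : ℝ)) :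
    pq 0 y = some m := by
  have hm' : (0 : ℝ) < m := by exact_mod_cast hm
  have hy : 0 < y := lt_trans (by positivity) h1
  have h3 : (m : ℝ) ≤ 1 / y := by
    rw [le_div_iff₀ hy]
    rw [le_div_iff₀ hm'] at h2
    linarith
  have h4 : 1 / y < (m : ℝ) + 1 := by
    rw [div_lt_iff₀ hy]
    rw [div_lt_iff₀ (by linarith)] at h1
    linarith
  unfold pq
  rw [if_neg hy.ne', (Nat.floor_eq_iff (by positivity)).2 ⟨h3, h4⟩]

theorem pq_one (y : ℝ) (m k : ℕ) (hm : 1 ≤ m) (hk : 2 ≤ k) (h1 : 1 / ((m : ℝ) + 1 / (k : ℝ)) ≤ y)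
    (h2 : y < 1 / ((m : ℝ) + 1 / ((k : ℝ) + 1))) : pq 1 y = some k := by
  have hm' : (0 : ℝ) < m := by exact_mod_cast hm
  have hk' : (0 : ℝ) < k := by exact_mod_cast (by omega : 0 < k)
  have hk2 : (2 : ℝ) ≤ k := by exact_mod_cast hk
  have hy : 0 < y := lt_of_lt_of_le (by positivity) h1
  have h3 : 1 / y ≤ (m : ℝ) + 1 / (k : ℝ) := by
    rw [div_le_iff₀ hy]
    rw [div_le_iff₀ (by positivity)] at h1
    linarith
  have h4 : (m : ℝ) + 1 / ((k : ℝ) + 1) < 1 / y := by
    rw [lt_div_iff₀ hy]
    rw [lt_div_iff₀ (by positivity)] at h2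
    linarith
  have h5 : 0 < 1 / ((k : ℝ) + 1) := by positivity
  have h6 : 1 / (k : ℝ) ≤ 1 / 2 := by
    apply one_div_le_one_div_of_le (by norm_num) hk2
  have h7 : Int.fract (1 / y) = 1 / y - m := by
    have : ⌊1 / y⌋ = (m : ℤ) := by
      rw [Int.floor_eq_iff]
      constructor
      · push_cast; linarith
      · push_cast; linarith
    unfold Int.fract
    rw [this]
    push_cast
    ring
  have h8 : pq 1 y = pq 0 (Int.fract (1 / y)) := by
    conv_lhs => unfold pq
    rw [if_neg hy.ne']
  rw [h8, h7]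
  apply pq_zero _ k (by omega)
  · linarith
  · linarith

theorem seqs_two (x : ℝ) (h1 : 937 / 4710 ≤ x) (h2 : x < 28244 / 141973) :
    seqs x 2 = some ([6, 27], [30, 28]) := by
  have e1 : seqs x 1 = some ([6], [30]) := by
    have a1 : pq 0 (x - cfval []) = some 5 := by
      apply pq_zero _ 5 (by norm_num)
      · simp only [cfval]; norm_num; linarith
      · simp only [cfval]; norm_num; linarith
    have a2 : pq 0 (x - cfval [5 + 1]) = some 30 := by
      apply pq_zero _ 30 (by norm_num)
      · simp only [cfval]; norm_num; linarith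
      · simp only [cfval]; norm_num; linarith
    simp only [seqs, Option.bind_some, a1, a2, List.nil_append]
  have a3 : pq 1 (x - cfval [30]) = some 26 := by
    apply pq_one _ 6 26 (by norm_num) (by norm_num)
    · simp only [cfval]; norm_num; linarith
    · simp only [cfval]; norm_num; linarith
  have a4 : pq 1 (x - cfval [6, 26 + 1]) = some 28 := by
    apply pq_one _ 30 28 (by norm_num) (by norm_num)
    · simp only [cfval]; norm_num; linarith
    · simp only [cfval]; norm_num; linarith
  have e2 : seqs x 2 = (seqs x 1).bind fun s =>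
      (pq 1 (x - cfval s.2)).bind fun a =>
        (pq 1 (x - cfval (s.1 ++ [a + 1]))).bind fun b => some (s.1 ++ [a + 1], s.2 ++ [b]) := rfl
  rw [e2, e1]
  simp only [Option.bind_some, a3, a4, List.cons_append, List.nil_append]

/-- **Theorem.** For every real `x` of the interval `937/4710 ≤ x < 28244/141973`, the procedure gives
`c_1 = 6`, `b_1 = 30`, `c_2 = 27`, `b_2 = 28`. So the sequence `(b_n)` is not always non-decreasing. -/
theorem result :
    (∀ x : ℝ, 937 / 4710 ≤ x → x < 28244 / 141973 → seqs x 2 = some ([6, 27], [30, 28])) ∧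
      ¬ (∀ x : ℝ, 0 < x → x ≤ 1 → ∀ (n : ℕ) (C B : List ℕ), seqs x n = some (C, B) →
        C.Pairwise (· ≤ ·) ∧ B.Pairwise (· ≤ ·)) := by
  refine ⟨seqs_two, fun h => ?_⟩
  have h1 := h (75 / 377) (by norm_num) (by norm_num) 2 _ _ (seqs_two (75 / 377) (by norm_num) (by norm_num))
  have h2 := h1.2
  simp at h2

end Pool.Agent.Results.MP_7100ec_nt.NotMonotone
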